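import Pool.Agent.Helper1.RK.StA

set_option autoImplicit false

namespace Pool.Agent.Helper9.RK

open Polynomial Pool.Agent.Helper1.RK

/-- a polynomial over an algebraically closed field with even multiplicities is a square -/
theorem isSquare_of_even {L : Type} [Field L] [IsAlgClosed L] :
    ∀ (n : ℕ) (P : L[X]), P.natDegree ≤ n → P ≠ 0 → (∀ p, Even (P.rootMultiplicity p)) →
      IsSquare P := by
  intro n
  induction n with
  | zero =>
    intro P hn hP _
    have h0 : P = C (P.coeff 0) := Polynomial.eq_C_of_natDegree_le_zero hn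
    obtain ⟨z, hz⟩ := IsAlgClosed.exists_pow_nat_eq (P.coeff 0) (n := 2) (by norm_num)
    refine ⟨C z, ?_⟩
    rw [h0, ← hz, ← C_mul]
    simp [pow_two]
  | succ n ih =>
    intro P hn hP hev
    by_cases hd : P.natDegree = 0
    · exact ih P (by omega) hP hev
    · have hdeg : P.degree ≠ 0 := by
        intro h
        exact hd (Polynomial.natDegree_eq_of_degree_eq_some h)
      obtain ⟨p, hp⟩ := IsAlgClosed.exists_root P hdeg
      have h1 : 1 ≤ P.rootMultiplicity p :=
        Nat.one_le_iff_ne_zero.mpr (by
          have := (Polynomial.rootMultiplicity_pos hP).mpr hp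
          omega)
      have h2 : 2 ≤ P.rootMultiplicity p := by
        obtain ⟨k, hk⟩ := hev p
        omega
      have hdvd : (X - C p) ^ 2 ∣ P := (Polynomial.le_rootMultiplicity_iff hP).mp h2
      obtain ⟨Q, hQ⟩ := hdvd
      have hX : ((X - C p) ^ 2 : L[X]) ≠ 0 := pow_ne_zero _ (Polynomial.X_sub_C_ne_zero p)
      have hQ0 : Q ≠ 0 := by
        rintro rfl
        exact hP (by rw [hQ, mul_zero])
      have hdegQ : Q.natDegree ≤ n := by
        have : P.natDegree = 2 + Q.natDegree := by
          rw [hQ, Polynomial.natDegree_mul hX hQ0, Polynomial.natDegree_pow,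
            Polynomial.natDegree_X_sub_C]
        omega
      have hsq : IsSquare Q := by
        refine ih Q hdegQ hQ0 ?_
        intro q
        have hm : P.rootMultiplicity q = ((X - C p) ^ 2 : L[X]).rootMultiplicity q
            + Q.rootMultiplicity q := by
          conv_lhs => rw [hQ]
          exact Polynomial.rootMultiplicity_mul (by rw [← hQ]; exact hP)
        have hm2 : ((X - C p) ^ 2 : L[X]).rootMultiplicity q
            = (X - C p : L[X]).rootMultiplicity q + (X - C p : L[X]).rootMultiplicity q := by
          rw [pow_two]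
          exact Polynomial.rootMultiplicity_mul (by rw [← pow_two]; exact hX)
        have he := hev q
        rw [hm, hm2, Nat.even_add] at he
        exact he.mp ⟨_, rfl⟩
      obtain ⟨R, hR⟩ := hsq
      refine ⟨(X - C p) * R, ?_⟩
      rw [hQ, hR]
      ring

/-- the order at infinity of a polynomial -/
theorem ord_inv (h1 : StORD) {L : Type} [Field L] [IsAlgClosed L]
    (ι : RatFunc L ≃ₐ[L] RatFunc L) (hι : ι RatFunc.X = RatFunc.X⁻¹) :
    ∀ (n : ℕ) (P : L[X]), P.natDegree = n → P ≠ 0 →
      ord 0 (ι (algebraMap L[X] (RatFunc L) P)) = - (n : ℤ) := by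
  obtain ⟨-, hmul, hinv, hneg, -, -, hadd, hC, hX1, -⟩ := h1 L 0
  have hιC : ∀ a : L, ι (RatFunc.C a) = RatFunc.C a := by
    intro a
    have := ι.commutes a
    simpa [RatFunc.algebraMap_eq_C] using this
  have hordX : ord 0 (RatFunc.X : RatFunc L) = 1 := by
    simpa using hX1
  have hXne : (RatFunc.X : RatFunc L) ≠ 0 := RatFunc.X_ne_zero
  have hlin : ∀ p : L, ord 0 (ι (RatFunc.X - RatFunc.C p)) = -1 := by
    intro p
    rw [map_sub, hι, hιC]
    have hXi : ord 0 (RatFunc.X⁻¹ : RatFunc L) = -1 := by
      rw [hinv, hordX]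
    by_cases hp : p = 0
    · rw [hp, map_zero, sub_zero, hXi]
    · have hCp : (RatFunc.C p : RatFunc L) ≠ 0 := by
        intro h
        exact hp (RatFunc.C_injective (by rw [h, map_zero]))
      have := (hadd (RatFunc.X⁻¹) (-(RatFunc.C p)) (inv_ne_zero hXne) (neg_ne_zero.mpr hCp)
        (by rw [hXi, hneg, hC]; norm_num)).2
      rw [sub_eq_add_neg, this, hXi]
  intro n
  induction n with
  | zero =>
    intro P hn hP
    have h0 : P = C (P.coeff 0) := Polynomial.eq_C_of_natDegree_le_zero (by omega)
    rw [h0, RatFunc.algebraMap_C, hιC, hC]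
    simp
  | succ n ih =>
    intro P hn hP
    have hdeg : P.degree ≠ 0 := by
      intro h
      have h9 : P.natDegree = 0 := Polynomial.natDegree_eq_of_degree_eq_some h
      rw [hn] at h9
      exact absurd h9 (Nat.succ_ne_zero n)
    obtain ⟨p, hp⟩ := IsAlgClosed.exists_root P hdeg
    obtain ⟨Q, hQ⟩ := Polynomial.dvd_iff_isRoot.mpr hp
    have hQ0 : Q ≠ 0 := by
      rintro rfl
      exact hP (by rw [hQ, mul_zero])
    have hdQ : Q.natDegree = n := by
      have h := Polynomial.natDegree_mul (Polynomial.X_sub_C_ne_zero p) hQ0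
      rw [← hQ, Polynomial.natDegree_X_sub_C, hn] at h
      omega
    have hA : algebraMap L[X] (RatFunc L) P
        = (RatFunc.X - RatFunc.C p) * algebraMap L[X] (RatFunc L) Q := by
      rw [hQ, map_mul, map_sub, RatFunc.algebraMap_X, RatFunc.algebraMap_C]
    have hne1 : (RatFunc.X - RatFunc.C p : RatFunc L) ≠ 0 := by
      intro h
      have h2 : algebraMap L[X] (RatFunc L) (X - C p) = 0 := by
        rw [map_sub, RatFunc.algebraMap_X, RatFunc.algebraMap_C, h]
      exact Polynomial.X_sub_C_ne_zero p
        ((map_eq_zero_iff _ (RatFunc.algebraMap_injective L)).mp h2)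
    have hne2 : algebraMap L[X] (RatFunc L) Q ≠ 0 := by
      intro h
      exact hQ0 ((map_eq_zero_iff _ (RatFunc.algebraMap_injective L)).mp h)
    have hι0 : ∀ x : RatFunc L, x ≠ 0 → ι x ≠ 0 := by
      intro x hx h
      exact hx ((map_eq_zero_iff ι ι.injective).mp h)
    rw [hA, map_mul, hmul _ _ (hι0 _ hne1) (hι0 _ hne2), hlin, ih Q hdQ hQ0]
    push_cast
    ring

theorem even_sum_iff {α : Type} [DecidableEq α] (S : Finset α) (f : α → ℤ) :
    Even (∑ a ∈ S, f a) ↔ Even (S.filter (fun a => Odd (f a))).card := by
  classical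
  induction S using Finset.induction_on with
  | empty => simp
  | insert a S ha ih =>
    rw [Finset.sum_insert ha, Finset.filter_insert]
    by_cases hodd : Odd (f a)
    · rw [if_pos hodd, Finset.card_insert_of_notMem (by simp [ha]), Nat.even_add_one, ← ih,
        Int.even_add]
      have : ¬ Even (f a) := Int.not_even_iff_odd.mpr hodd
      tauto
    · rw [if_neg hodd, ← ih, Int.even_add]
      have : Even (f a) := Int.not_odd_iff_even.mp hodd
      tauto

theorem sum_mult {L : Type} [Field L] [IsAlgClosed L] (P : L[X]) (S : Finset L)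
    (hS : ∀ p, P.rootMultiplicity p ≠ 0 → p ∈ S) :
    ∑ p ∈ S, P.rootMultiplicity p = P.natDegree := by
  classical
  have h1 : P.roots.card = P.natDegree :=
    (Polynomial.splits_iff_card_roots).mp (IsAlgClosed.splits P)
  rw [← h1, ← Multiset.toFinset_sum_count_eq]
  symm
  rw [← Finset.sum_subset (s₁ := P.roots.toFinset) (s₂ := S)]
  · refine Finset.sum_congr rfl ?_
    intro p _
    rw [Polynomial.count_roots]
  · intro p hp
    apply hS
    rw [Multiset.mem_toFinset, ← Multiset.one_le_count_iff_mem, Polynomial.count_roots] at hp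
    omega
  · intro p _ hp
    rw [Multiset.mem_toFinset] at hp
    have := Multiset.count_eq_zero.mpr hp
    rwa [Polynomial.count_roots] at this

theorem pSQR (h1 : StORD) (_h2 : StREG) : StSQR := by
  classical
  intro L _ _ ι hι g hg
  have hnum : g.num ≠ 0 := RatFunc.num_ne_zero hg
  have hden : g.denom ≠ 0 := RatFunc.denom_ne_zero g
  have hgeq : g = algebraMap L[X] (RatFunc L) g.num / algebraMap L[X] (RatFunc L) g.denom :=
    (RatFunc.num_div_denom g).symm
  have hcop : IsCoprime g.num g.denom := RatFunc.isCoprime_num_denom g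
  have hdisj : ∀ p, g.num.rootMultiplicity p = 0 ∨ g.denom.rootMultiplicity p = 0 := by
    intro p
    by_contra hcon
    push Not at hcon
    have ha : g.num.IsRoot p := (Polynomial.rootMultiplicity_pos hnum).mp (by omega)
    have hb : g.denom.IsRoot p := (Polynomial.rootMultiplicity_pos hden).mp (by omega)
    obtain ⟨u, v, huv⟩ := hcop
    have := congrArg (Polynomial.eval p) huv
    rw [Polynomial.eval_add, Polynomial.eval_mul, Polynomial.eval_mul, ha.eq_zero, hb.eq_zero] at this
    simp at this
  refine ⟨?_, ?_⟩
  · intro hev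
    have hmn : ∀ p, Even ((g.num * g.denom).rootMultiplicity p) := by
      intro p
      rw [Polynomial.rootMultiplicity_mul (mul_ne_zero hnum hden)]
      have he := hev p
      unfold ord at he
      rcases hdisj p with h | h
      · rw [h] at he ⊢
        have : Even ((g.denom.rootMultiplicity p : ℤ)) := by
          rw [Nat.cast_zero, zero_sub, even_neg] at he
          exact he
        rw [zero_add]
        exact_mod_cast this
      · rw [h] at he ⊢
        rw [Nat.cast_zero, sub_zero] at he
        rw [add_zero]
        exact_mod_cast he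
    obtain ⟨R, hR⟩ := isSquare_of_even _ (g.num * g.denom) le_rfl (mul_ne_zero hnum hden) hmn
    refine ⟨algebraMap L[X] (RatFunc L) R / algebraMap L[X] (RatFunc L) g.denom, ?_⟩
    have hd : algebraMap L[X] (RatFunc L) g.denom ≠ 0 := by
      intro h
      exact hden ((map_eq_zero_iff _ (RatFunc.algebraMap_injective L)).mp h)
    have hR' : algebraMap L[X] (RatFunc L) g.num * algebraMap L[X] (RatFunc L) g.denom
        = algebraMap L[X] (RatFunc L) R * algebraMap L[X] (RatFunc L) R := by
      rw [← map_mul, ← map_mul, hR]
    rw [div_mul_div_comm, ← hR', mul_div_mul_right _ _ hd]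
    exact hgeq
  · intro hev B hB
    obtain ⟨-, hmul, hinv, -, -, -, -, -, -, -⟩ := h1 L 0
    have hd : algebraMap L[X] (RatFunc L) g.denom ≠ 0 := by
      intro h
      exact hden ((map_eq_zero_iff _ (RatFunc.algebraMap_injective L)).mp h)
    have hn : algebraMap L[X] (RatFunc L) g.num ≠ 0 := by
      intro h
      exact hnum ((map_eq_zero_iff _ (RatFunc.algebraMap_injective L)).mp h)
    have hord : ord 0 (ι g) = (g.denom.natDegree : ℤ) - g.num.natDegree := by
      conv_lhs => rw [hgeq]
      rw [div_eq_mul_inv, map_mul, map_inv₀, hmul _ _ (by simpa using hn)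
        (inv_ne_zero (by simpa using hd)), hinv, ord_inv h1 ι hι _ _ rfl hnum,
        ord_inv h1 ι hι _ _ rfl hden]
      ring
    set S : Finset L := g.num.roots.toFinset ∪ g.denom.roots.toFinset with hS
    have hSn : ∀ p, g.num.rootMultiplicity p ≠ 0 → p ∈ S := by
      intro p hp
      rw [hS, Finset.mem_union, Multiset.mem_toFinset, Multiset.mem_toFinset]
      left
      rw [← Multiset.one_le_count_iff_mem, Polynomial.count_roots]
      omega
    have hSd : ∀ p, g.denom.rootMultiplicity p ≠ 0 → p ∈ S := by
      intro p hp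
      rw [hS, Finset.mem_union, Multiset.mem_toFinset, Multiset.mem_toFinset]
      right
      rw [← Multiset.one_le_count_iff_mem, Polynomial.count_roots]
      omega
    have hsum : ∑ p ∈ S, ord p g = (g.num.natDegree : ℤ) - g.denom.natDegree := by
      unfold ord
      rw [Finset.sum_sub_distrib, ← Nat.cast_sum, ← Nat.cast_sum, sum_mult _ S hSn,
        sum_mult _ S hSd]
    have hevS : Even (∑ p ∈ S, ord p g) := by
      rw [hsum]
      rw [hord] at hev
      have := hev.neg
      rwa [neg_sub] at this
    rw [even_sum_iff] at hevS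
    have hBS : B = S.filter (fun a => Odd (ord a g)) := by
      ext p
      rw [Finset.mem_filter, hB]
      constructor
      · intro hp
        refine ⟨?_, hp⟩
        by_contra hpS
        have ha : g.num.rootMultiplicity p = 0 := by
          by_contra hne
          exact hpS (hSn p hne)
        have hb : g.denom.rootMultiplicity p = 0 := by
          by_contra hne
          exact hpS (hSd p hne)
        unfold ord at hp
        rw [ha, hb] at hp
        simp at hp
      · intro hp
        exact hp.2
    rw [hBS]
    exact hevS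

end Pool.Agent.Helper9.RK
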